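import Pool.Agent.H174.GP.StE

set_option autoImplicit false
set_option linter.unusedVariables false

open MeasureTheory ProbabilityTheory Finset Filter Topology

namespace Pool.Agent.H308.GP174

open Pool.Agent.H174.GP

/-- The same set in terms of the differences. -/
def FSd (d : ℕ) (e : ℝ) : Set ((ℕ → ℤ) × (ℕ → ℕ)) :=
  {q | ∀ k ∈ Finset.Icc ⌈(Real.log d) ^ 8⌉₊ ⌊(⌊(d : ℝ) ^ (1 - e)⌋₊ : ℝ) / (Real.log d) ^ 8⌋₊,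
      -((d : ℝ) * (Real.log d) ^ 2 + k * ((d : ℝ) / Real.sqrt ⌊(d : ℝ) ^ (1 - e)⌋₊) * (Real.log d) ^ 2)
        ≤ ∑ j ∈ Finset.Icc 2 ⌊(d : ℝ) ^ (1 - e)⌋₊, ((min j k : ℕ) : ℝ) * (q.1 j : ℝ)}

theorem dep_FS (d : ℕ) (e : ℝ) : DepZ ⌊(d : ℝ) ^ (1 - e)⌋₊ (FS d e) := by
  intro p p' h hp k hk
  have h1 := hp k hk
  refine h1.trans (le_of_eq ?_)
  refine Finset.sum_congr rfl (fun j hj => ?_)
  rw [Finset.mem_Icc] at hj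
  obtain ⟨ha, hb⟩ := h j (Finset.mem_Icc.mpr ⟨by omega, hj.2⟩)
  rw [ha, hb]

theorem dep_FSd (d : ℕ) (e : ℝ) : DepZ ⌊(d : ℝ) ^ (1 - e)⌋₊ (FSd d e) := by
  intro p p' h hp k hk
  have h1 := hp k hk
  refine h1.trans (le_of_eq ?_)
  refine Finset.sum_congr rfl (fun j hj => ?_)
  rw [Finset.mem_Icc] at hj
  obtain ⟨ha, hb⟩ := h j (Finset.mem_Icc.mpr ⟨by omega, hj.2⟩)
  rw [ha]

theorem key_eq (h2 : S_Xg) (d : ℕ) (e σ : ℝ) (hσ : 0 < σ) :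
    (PP.prod PP).real {p | ((fun j => gs σ p.1 j), (fun j => gs σ p.2 j)) ∈ FS d e} =
    PP.real {ω | ∀ k ∈ Finset.Icc ⌈(Real.log d) ^ 8⌉₊ ⌊(⌊(d : ℝ) ^ (1 - e)⌋₊ : ℝ) / (Real.log d) ^ 8⌋₊,
      -((d : ℝ) * (Real.log d) ^ 2 + k * ((d : ℝ) / Real.sqrt ⌊(d : ℝ) ^ (1 - e)⌋₊) * (Real.log d) ^ 2)
        ≤ ∑ j ∈ Finset.Icc 2 ⌊(d : ℝ) ^ (1 - e)⌋₊, ((min j k : ℕ) : ℝ) * (geo σ ω j : ℝ)} := by
  have e1 := h2 ⌊(d : ℝ) ^ (1 - e)⌋₊ σ (FSd d e) hσ (dep_FSd d e)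
  have e2 : {p : (ℕ → ℝ) × (ℕ → ℝ) | ((fun j => gs σ p.1 j), (fun j => gs σ p.2 j)) ∈ FS d e} =
      {p | ((fun j => (gs σ p.1 j : ℤ) - (gs σ p.2 j : ℤ)),
        (fun j => min (gs σ p.1 j) (gs σ p.2 j))) ∈ FSd d e} := by
    ext p
    simp only [FS, FSd, Set.mem_setOf_eq, Int.cast_sub, Int.cast_natCast]
  rw [e2, e1]
  have e3 : {p : (ℕ → ℝ) × (ℕ → ℝ) | ((fun j => geo σ p.1 j), (fun j => gs (2 * σ) p.2 j)) ∈ FSd d e} =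
      {ω | ∀ k ∈ Finset.Icc ⌈(Real.log d) ^ 8⌉₊ ⌊(⌊(d : ℝ) ^ (1 - e)⌋₊ : ℝ) / (Real.log d) ^ 8⌋₊,
      -((d : ℝ) * (Real.log d) ^ 2 + k * ((d : ℝ) / Real.sqrt ⌊(d : ℝ) ^ (1 - e)⌋₊) * (Real.log d) ^ 2)
        ≤ ∑ j ∈ Finset.Icc 2 ⌊(d : ℝ) ^ (1 - e)⌋₊, ((min j k : ℕ) : ℝ) * (geo σ ω j : ℝ)} ×ˢ Set.univ := by
    ext p
    simp only [FSd, Set.mem_setOf_eq, Set.mem_prod, Set.mem_univ, and_true]
  rw [e3, Measure.real, Measure.real, Measure.prod_prod, measure_univ, mul_one]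

theorem gp_du3 (h1 : S_tilt) (h2 : S_Xg) (h3 : S_PU2) : Pool.Agent.H174.GP.S_DU3 := by
  intro θ s1 s2 C ε hθ hIs hs1 hs2 hC hε
  obtain ⟨e, he0, he1, h4⟩ := h3 θ s1 s2 (ε / 2) hθ hIs hs1 hs2 (by linarith)
  obtain ⟨d1, hd1⟩ := h4 e he0 le_rfl
  obtain ⟨d2, hd2⟩ := h1 s1 s2 C e (θ + 1) hs1 hs2 hC he0 he1 (by linarith)
  have hlim : Tendsto (fun d : ℕ => (d : ℝ) ^ (ε / 2)) atTop atTop :=
    (tendsto_rpow_atTop (by linarith : (0 : ℝ) < ε / 2)).comp tendsto_natCast_atTop_atTop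
  obtain ⟨d3, hd3⟩ := Filter.eventually_atTop.mp (hlim.eventually_ge_atTop 3)
  refine ⟨e, he0, he1, max (max d1 d2) (max d3 1), ?_⟩
  intro d hd σ σ' hσ hσ' ha hb ha' hb' hσσ
  have hA : d1 ≤ d := le_trans (le_trans (le_max_left _ _) (le_max_left _ _)) hd
  have hB : d2 ≤ d := le_trans (le_trans (le_max_right _ _) (le_max_left _ _)) hd
  have hCC : d3 ≤ d := le_trans (le_trans (le_max_left _ _) (le_max_right _ _)) hd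
  have hD : 1 ≤ d := le_trans (le_trans (le_max_right _ _) (le_max_right _ _)) hd
  have hd0 : (0 : ℝ) < d := by exact_mod_cast hD
  have hd1' : (1 : ℝ) ≤ d := by exact_mod_cast hD
  have hL : ((⌊(d : ℝ) ^ (1 - e)⌋₊ : ℕ) : ℝ) ≤ (d : ℝ) ^ (1 - e) :=
    Nat.floor_le (Real.rpow_nonneg hd0.le _)
  obtain ⟨t1, t2⟩ := hd2 d hB σ σ' hσ hσ' ha hb ha' hb' hσσ ⌊(d : ℝ) ^ (1 - e)⌋₊ hL (FS d e) (dep_FS d e)
  have h5 := hd1 d hA σ hσ ha hb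
  rw [← key_eq h2 d e σ hσ] at h5
  have h6 : 2 * (d : ℝ) ^ (-θ + ε / 2) + (d : ℝ) ^ (-(θ + 1)) ≤ (d : ℝ) ^ (-θ + ε) := by
    have h7 : (d : ℝ) ^ (-(θ + 1)) ≤ (d : ℝ) ^ (-θ + ε / 2) :=
      Real.rpow_le_rpow_of_exponent_le hd1' (by linarith)
    have h8 : (d : ℝ) ^ (-θ + ε) = (d : ℝ) ^ (-θ + ε / 2) * (d : ℝ) ^ (ε / 2) := by
      rw [← Real.rpow_add hd0]
      congr 1
      ring
    have h9 := hd3 d hCC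
    have h10 : 0 < (d : ℝ) ^ (-θ + ε / 2) := Real.rpow_pos_of_pos hd0 _
    rw [h8]
    nlinarith
  constructor
  · linarith
  · linarith

end Pool.Agent.H308.GP174
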